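import Pool.Agent.U434.PA.Weil

/-!
# The `p`-adic weight-monodromy conjecture for projective hyperkähler varieties

Let `X` be a projective hyperkähler variety over a `p`-adic field `k`, of any deformation type. We
prove Jannsen's `p`-adic monodromy-weight conjecture for `H^m_pst(X)`, for all `m`. Inputs are the
conjecture for `H²`, which is known, the action of `so(H²)` on the cohomology (Verbitsky,
Looijenga-Lunts) and standard facts on cohomology (see the definitions in `U434.PA.Defs` and
`N184.HK`).

Idea of the proof. The variety `X` is a fibre of a family over a scheme `S` of finite type over `ℤ`;
let `G` be the fundamental group of `S`, acting on the `p`-adic cohomology `H^i`. Let `A_i` be the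
algebra of the endomorphisms of `H^i` which commute with `so(H²)`.

(1) At the closed points of `S` with prime residue field (these replace the places of good
reduction of degree one in the proof of the `ℓ`-adic conjecture for hyperkähler varieties over number
fields, `N184.HK`) the eigenvalues of a Frobenius element on `A_i` are roots of unity of order
dividing an integer `M_i`, by weak admissibility.

(2) The Frobenius of `D_pst(H^i)` is not given by an element of a Galois group. But, as an element of
the Weil group with its linear action on Fontaine's `D_pst`, it is an element `F` of the Zariski closure
of the image of the Galois group, in particular of the Zariski closure of the set of the Frobenius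
elements `σ` in `G`. So the properties in (1) have to be written as polynomial identities in `σ`.
For the first one, `a ↦ σ^M a - a σ^M` is nilpotent on `A_i` for `M = M_i`. Let `z` be a central
idempotent of `A_i`. The determinant `D` of the compression `z σ z` of `σ` to the image of `z` is zero
if `σ` does not commute with `z`, and otherwise `D ^ (4 e) = μ(σ) ^ (i n e)` where `μ(σ)` is the
multiplier of `σ` on `H²`, `n` is the rank of `z`, and `e` only depends on `i` and `n`. So
`D (D ^ (4 e) - μ ^ (i n e)) = 0` for all Frobenius elements, and thus for `F`.

(3) It follows that `N_i` is the image of `N_2` under the representation of `so(H²)` on `H^i`, and that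
the weight operator of `F` on `H^i`, minus `i`, is the image of the one on `H²` up to a commuting
nilpotent operator. The conjecture for `H²` gives an `sl₂`-triple in `so(H²)` and its image in the
endomorphisms of `H^i` shows the conjecture for `H^i` and all `g` in the Weil group with `v(g) > 0`.
The other elements of the Weil group follow.
-/

set_option autoImplicit false

namespace Pool.Agent.Results.MP_6451f1_ag.HyperkaehlerPadic

open Pool.Agent.U434.PA

/-- **The `p`-adic weight-monodromy conjecture for projective hyperkähler varieties.** Let `X` be a
projective hyperkähler variety over a `p`-adic field, and `D` the representations of its Weil group on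
the `H^m_pst(X)`, with their operators `N`. Then the monodromy filtration `M` of `N` exists, is stable
under the Weil group, and the eigenvalues of the elements `g` of the Weil group on its graded pieces
`M_s / M_(s - 1)` are algebraic numbers all of whose conjugates have absolute value
`p ^ ((m + s) v(g) / 2)`. -/
theorem result {Ω : Type} [Field Ω] [CharZero Ω] [IsAlgClosed Ω] [TopologicalSpace Ω]
    [IsTopologicalRing Ω] [T2Space Ω] (X : HKFamily Ω) (p : ℕ) (hp : p.Prime) (D : Pst X p) :
    ∀ m ≤ X.d, D.IsPure m :=
  fun _ hm => pst_pure D hp.one_lt hm

end Pool.Agent.Results.MP_6451f1_ag.HyperkaehlerPadic
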