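import Pool.Agent.U548.PD.Dim

/-!
# The p-adic monodromy-weight conjecture and the ranks of the powers of N

Let `K` be a `p`-adic local field whose residue field has `p ^ h` elements, `g` an element of the Weil
group with `v(g) > 0` and `q = p ^ v(g)`. The index set `I` is the set of all prime numbers, `p`
included: for `ℓ ≠ p` the theory `W ℓ` is the `ℓ`-adic cohomology of the smooth projective varieties
over `K` (coefficients: an algebraic closure of the field of `ℓ`-adic numbers), with the action `F` of
`g` in the Weil-Deligne representation and its monodromy operator `N`; for `ℓ = p` it is
`H^m_{pst,p}(X)` (coefficients extended to an algebraic closure of `P_0`), with the linear action `F`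
of `g` and with `N`. The operator `P` is the identity, or the projection to the invariants of the
finite group through which inertia acts. The properties `EllSystem.Known` are known facts for both
choices (for the traces: T. Saito for `ℓ ≠ p`, Ochiai and T. Saito for `ℓ = p`).

**Theorem.** Let `X` be a smooth projective variety whose Künneth projector of degree `i` is given by
an algebraic cycle, and let `(X, e)` be a motive (for example `e` the diagonal).

1. For every `c` the characteristic polynomial of `F` on the part of weight `i + c` of the image of `e`
   on `H^i(X)` (of its `P`-invariants) has integral coefficients and is the same for all the primes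
   `ℓ`, `p` included.
2. If `H^i(X)` is mw pure (the monodromy-weight conjecture) for `ℓ`, so is this part of the motive.
3. Suppose that this part is pure for one prime `ℓ`. Then for every prime `ℓ'` (for example `ℓ' = p`)
   and every `s` the kernel of `N ^ s` has at least the dimension which it has for `ℓ`; and the part is
   pure for `ℓ'` if and only if these dimensions are equal for all `s`.

So, for example for complete intersections, for which the `ℓ`-adic conjecture is known (Scholze), or
for fourfolds whose zero-cycles are supported on a surface, the `p`-adic conjecture only says that the
powers of the `p`-adic monodromy operator have the same ranks as those of one `ℓ`-adic monodromy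
operator; the inequality in one direction always holds.
-/

set_option autoImplicit false

open CategoryTheory AlgebraicGeometry

universe u v w

namespace Pool.Agent.Results.MP_6451f1_ag.KernelsDecidePurity

open Pool.Agent.H914 Pool.Agent.U548.DG Pool.Agent.U548.EL Pool.Agent.U548.PD

/-- **The ranks of the powers of the monodromy operator decide purity.** -/
theorem result {k : Type u} [Field k] {𝒱 : VarClass k} {ops : CycleOps 𝒱} {I : Type w}
    (S : EllSystem.{u, v, w} ops I) (q : ℕ) (hS : S.Known q) (X : 𝒱.Obj) (i : ℕ)
    (hX : S.AlgProj X i) (e : (X.prod X).Cycles) (he : S.IsMotive X e) :
    SameGraded S q X e i ∧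
      (∀ ℓ, (S.A ℓ).PureIn q X i → PurePart S q ℓ X e i) ∧
      ∀ ℓ ℓ' : I, PurePart S q ℓ X e i →
        (∀ s, kernelDim S ℓ X e i s ≤ kernelDim S ℓ' X e i s) ∧
        (PurePart S q ℓ' X e i ↔ ∀ s, kernelDim S ℓ' X e i s = kernelDim S ℓ X e i s) :=
  ⟨same_graded hS hX he, fun _ h => pure_part hS h he, fun _ _ h => dim_iff hS hX he h⟩

end Pool.Agent.Results.MP_6451f1_ag.KernelsDecidePurity
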