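import Pool.Agent.U644.PL.Core

/-!
# The `p`-adic and the `ℓ`-adic monodromy-weight conjecture and local Euler factors

Let `K` be a finite extension of `ℚ_p` whose residue field has `q` elements. For the smooth proper
varieties `X` over `K` we consider two cohomology theories:

* `Tp`: the `p`-adic theory `H^m_{pst,p}(X)` with the linear action of an element `F` of the Weil group
  which induces the geometric Frobenius, and the monodromy operator `N`, with coefficients in the
  algebraic closure `Ω` of `P_0 = W(\bar k)[1/p]`;
* `Tl`: the `ℓ`-adic theory `H^m(X_{\bar K}, ℚ_ℓ)`, `ℓ ≠ p`, with the same data, with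
  coefficients in the algebraic closure `Ω'` of `ℚ_ℓ`.

Both have the known properties (`Known`): Künneth formula, duality up to a Tate twist, integral
weights, weights at most `m + dim X`, and a test variety `Z`, for example a Tate curve.

The local Euler factors of `X` in the two theories agree (`SameEuler`) if the characteristic
polynomials of `F` on the kernels of `N` on the `H^m` are rational and coincide; the Frobenius
polynomials agree (`SameFrobenius`) if this is true for `F` on the whole `H^m`. (Both are conjectured
for all `X`, and both are open in general.)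

Theorem. Let `Y = X × Z^(dim X - 1)`.

(1) If the `p`-adic and the `ℓ`-adic Euler factors of the single variety `Y` agree, then the `p`-adic
monodromy-weight conjecture for `X` is equivalent to the `ℓ`-adic one for `X`.

(2) If the Frobenius polynomials of `Y` agree and the `ℓ`-adic conjecture holds for `X`, then the
`p`-adic conjecture for `X` is equivalent to the agreement of the Euler factors of `Y`.

(3) If the Euler factors agree for all varieties then the `p`-adic conjecture for all varieties (Q1)
is equivalent to the `ℓ`-adic conjecture for all varieties.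

(4) If the Frobenius polynomials agree for all varieties and the `ℓ`-adic conjecture holds for all
varieties, then the `p`-adic conjecture for all varieties is equivalent to the agreement of all
Euler factors.

Proof: (1) follows from the test curve criterion `Pool.Agent.U644.MW.main`: each of the two
conjectures for `X` says that the weights of the kernel of `N` on `H^m(Y)` are at most `m`, and this is
determined by the Euler factors. For (2) one computes, under purity, the multiplicities of the
eigenvalues on the kernel of `N` from those on `H^m`: they are `mult(α) - mult(α / q)` for the weights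
at most `m + 1`, and `0` for the weights larger than `m`.
-/

set_option autoImplicit false

universe u v w v' w'

open Pool.Agent.H914 Pool.Agent.Y163.MW Pool.Agent.U644.MW Pool.Agent.U644.PL

namespace Pool.Agent.Results.MP_6451f1_ag.PadicVersusEllAdic

/-- The known properties of the cohomology theory, with a test variety `Z`. -/
structure Known {K : Type u} [Field K] {Ω : Type w} [Field Ω] [CharZero Ω]
    (T : Theory.{u, v, w} K Ω) (q : ℕ) (Z : SmVar.{u} K) : Prop where
  one_lt : 1 < q
  isLocal : T.IsLocal q
  range : ∀ X : SmVar.{u} K, WeightRange (T.H X) q X.dim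
  test : IsTest (T.H Z) q

/-- The monodromy-weight conjecture for `X` in the theory `T`. -/
def MonodromyWeight {K : Type u} [Field K] {Ω : Type w} [Field Ω] [CharZero Ω]
    (T : Theory.{u, v, w} K Ω) (q : ℕ) (X : SmVar.{u} K) : Prop := ∀ m, (T.H X).MWPure q m

section

variable {K : Type u} [Field K] {Ω : Type w} [Field Ω] {Ω' : Type w'} [Field Ω']
  (Tp : Theory.{u, v, w} K Ω) (Tl : Theory.{u, v', w'} K Ω')

/-- The Euler factors of `X` in the two theories agree. -/
def EulerAgree (X : SmVar.{u} K) : Prop := SameEuler (Tp.H X) (Tl.H X)

/-- The Frobenius polynomials of `X` in the two theories agree. -/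
def FrobeniusAgree (X : SmVar.{u} K) : Prop := SameFrobenius (Tp.H X) (Tl.H X)

end

/-- The variety `X × Z^(dim X - 1)`. -/
noncomputable def aux {K : Type u} [Field K] (Z X : SmVar.{u} K) : SmVar.{u} K :=
  times X Z (X.dim - 1)

theorem result {K : Type u} [Field K] {Ω : Type w} [Field Ω] [CharZero Ω] [IsAlgClosed Ω]
    {Ω' : Type w'} [Field Ω'] [CharZero Ω'] [IsAlgClosed Ω'] (Tp : Theory.{u, v, w} K Ω)
    (Tl : Theory.{u, v', w'} K Ω') (q : ℕ) (Z : SmVar.{u} K) (hp : Known Tp q Z)
    (hl : Known Tl q Z) :
    (∀ X, EulerAgree Tp Tl (aux Z X) → (MonodromyWeight Tp q X ↔ MonodromyWeight Tl q X)) ∧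
    (∀ X, FrobeniusAgree Tp Tl (aux Z X) → MonodromyWeight Tl q X →
      (MonodromyWeight Tp q X ↔ EulerAgree Tp Tl (aux Z X))) ∧
    ((∀ X, EulerAgree Tp Tl X) →
      ((∀ X, MonodromyWeight Tp q X) ↔ ∀ X, MonodromyWeight Tl q X)) ∧
    ((∀ X, FrobeniusAgree Tp Tl X) → (∀ X, MonodromyWeight Tl q X) →
      ((∀ X, MonodromyWeight Tp q X) ↔ ∀ X, EulerAgree Tp Tl X)) := by
  obtain ⟨hq, hT, hW, hZ⟩ := hp
  obtain ⟨_, hT', hW', hZ'⟩ := hl
  have h1 := fun X => main hq hT hT' hW hW' Z hZ hZ' X
  refine ⟨fun X => (h1 X).1, fun X hF hl => ⟨fun hp => (h1 X).2 hp hl _ hF, fun h => ?_⟩,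
    fun h => ⟨fun hp X => ?_, fun hl X => ?_⟩, fun hF hl => ⟨fun hp X => ?_, fun h X => ?_⟩⟩
  · exact ((h1 X).1 h).2 hl
  · exact ((h1 X).1 (h _)).1 (hp X)
  · exact ((h1 X).1 (h _)).2 (hl X)
  · exact (h1 X).2 (hp X) (hl X) 0 (hF X)
  · exact ((h1 X).1 (h _)).2 (hl X)

end Pool.Agent.Results.MP_6451f1_ag.PadicVersusEllAdic
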